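import Pool.Agent.H65.Kn.D00
import Pool.Agent.H65.Kn.D01
import Pool.Agent.H65.Kn.D02
import Pool.Agent.H65.Kn.D03
import Pool.Agent.H65.Kn.D04
import Pool.Agent.H65.Kn.D05
import Pool.Agent.H65.Kn.D06
import Pool.Agent.H65.Kn.D07
import Pool.Agent.H65.Kn.D08
import Pool.Agent.H65.Kn.D09
import Pool.Agent.H65.Kn.D10
import Pool.Agent.H65.Kn.D11
import Pool.Agent.H65.Kn.D12
import Pool.Agent.H65.Kn.D13

/-!
# All windows together
-/

set_option autoImplicit false

namespace Pool.Agent.H65.Kn

theorem c0 : Seg tbl (64 * 120) (64 * 124) :=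
  w0

theorem c1 : Seg tbl (64 * 137) (64 * 146) :=
  w1

theorem c2 : Seg tbl (64 * 150) (64 * 154) :=
  w2

theorem c3 : Seg tbl (64 * 156) (64 * 160) :=
  w3

theorem c4 : Seg tbl (64 * 294) (64 * 298) :=
  w4

theorem c5 : Seg tbl (64 * 300) (64 * 311) :=
  w5

theorem c6 : Seg tbl (64 * 333) (64 * 338) :=
  w6

theorem c7 : Seg tbl (64 * 342) (64 * 366) :=
  w7

theorem c8 : Seg tbl (64 * 373) (64 * 386) :=
  w8

theorem c9 : Seg tbl (64 * 389) (64 * 402) :=
  w9

theorem c10 : Seg tbl (64 * 409) (64 * 412) :=
  w10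

theorem c11 : Seg tbl (64 * 421) (64 * 431) :=
  w11

theorem c12 : Seg tbl (64 * 621) (64 * 623) :=
  w12

theorem c13 : Seg tbl (64 * 646) (64 * 651) :=
  (((w13.trans w14).trans w15).trans w16).trans w17

theorem c14 : Seg tbl (64 * 655) (64 * 658) :=
  w18

theorem c15 : Seg tbl (64 * 660) (64 * 666) :=
  w19

theorem c16 : Seg tbl (64 * 667) (64 * 669) :=
  w20

theorem c17 : Seg tbl (64 * 720) (64 * 727) :=
  (((((((((((((((w21.trans w22).trans w23).trans w24).trans w25).trans w26).trans w27).trans w28).trans w29).trans w30).trans w31).trans w32).trans w33).trans w34).trans w35).trans w36).trans w37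

theorem c18 : Seg tbl (64 * 733) (64 * 746) :=
  ((w38.trans w39).trans w40).trans w41

theorem c19 : Seg tbl (64 * 748) (64 * 775) :=
  (((((((((((((((((((((((((w42.trans w43).trans w44).trans w45).trans w46).trans w47).trans w48).trans w49).trans w50).trans w51).trans w52).trans w53).trans w54).trans w55).trans w56).trans w57).trans w58).trans w59).trans w60).trans w61).trans w62).trans w63).trans w64).trans w65).trans w66).trans w67).trans w68

theorem c20 : Seg tbl (64 * 776) (64 * 778) :=
  w69

theorem c21 : Seg tbl (64 * 780) (64 * 786) :=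
  ((((w70.trans w71).trans w72).trans w73).trans w74).trans w75

theorem c22 : Seg tbl (64 * 787) (64 * 789) :=
  (((w76.trans w77).trans w78).trans w79).trans w80

theorem c23 : Seg tbl (64 * 830) (64 * 832) :=
  w81.trans w82

theorem c24 : Seg tbl (64 * 834) (64 * 847) :=
  ((((((((w83.trans w84).trans w85).trans w86).trans w87).trans w88).trans w89).trans w90).trans w91).trans w92

theorem c25 : Seg tbl (64 * 849) (64 * 852) :=
  ((((((((((((w93.trans w94).trans w95).trans w96).trans w97).trans w98).trans w99).trans w100).trans w101).trans w102).trans w103).trans w104).trans w105).trans w106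

theorem c26 : Seg tbl (64 * 853) (64 * 915) :=
  ((((((((((((((((((((w107.trans w108).trans w109).trans w110).trans w111).trans w112).trans w113).trans w114).trans w115).trans w116).trans w117).trans w118).trans w119).trans w120).trans w121).trans w122).trans w123).trans w124).trans w125).trans w126).trans w127).trans w128

theorem c27 : Seg tbl (64 * 932) (64 * 967) :=
  (((((((w129.trans w130).trans w131).trans w132).trans w133).trans w134).trans w135).trans w136).trans w137

theorem c28 : Seg tbl (64 * 972) (64 * 1004) :=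
  (((((((((((((((((w138.trans w139).trans w140).trans w141).trans w142).trans w143).trans w144).trans w145).trans w146).trans w147).trans w148).trans w149).trans w150).trans w151).trans w152).trans w153).trans w154).trans w155).trans w156

theorem c29 : Seg tbl (64 * 1009) (64 * 1013) :=
  w157

theorem c30 : Seg tbl (64 * 1015) (64 * 1019) :=
  (((((w158.trans w159).trans w160).trans w161).trans w162).trans w163).trans w164

theorem c31 : Seg tbl (64 * 1050) (64 * 1051) :=
  w165.trans w166

theorem c32 : Seg tbl (64 * 1053) (64 * 1077) :=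
  ((((((((((((((w167.trans w168).trans w169).trans w170).trans w171).trans w172).trans w173).trans w174).trans w175).trans w176).trans w177).trans w178).trans w179).trans w180).trans w181).trans w182

theorem c33 : Seg tbl (64 * 1145) (64 * 1151) :=
  w183.trans w184

theorem c34 : Seg tbl (64 * 1175) (64 * 1178) :=
  w185

theorem c35 : Seg tbl (64 * 1181) (64 * 1186) :=
  (w186.trans w187).trans w188

theorem c36 : Seg tbl (64 * 1440) (64 * 1444) :=
  w189

theorem c37 : Seg tbl (64 * 1457) (64 * 1466) :=
  w190

theorem c38 : Seg tbl (64 * 1470) (64 * 1474) :=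
  w191

theorem c39 : Seg tbl (64 * 1476) (64 * 1480) :=
  w192

theorem c40 : Seg tbl (64 * 1663) (64 * 1666) :=
  w193

theorem c41 : Seg tbl (64 * 1920) (64 * 1924) :=
  w194

theorem c42 : Seg tbl (64 * 1937) (64 * 1946) :=
  w195

theorem c43 : Seg tbl (64 * 1950) (64 * 1954) :=
  w196

theorem c44 : Seg tbl (64 * 1956) (64 * 1960) :=
  w197

theorem c45 : Seg tbl (64 * 2094) (64 * 2098) :=
  w198

theorem c46 : Seg tbl (64 * 2100) (64 * 2111) :=
  w199

theorem c47 : Seg tbl (64 * 2133) (64 * 2138) :=
  w200

theorem c48 : Seg tbl (64 * 2142) (64 * 2166) :=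
  w201

theorem c49 : Seg tbl (64 * 2173) (64 * 2186) :=
  w202

theorem c50 : Seg tbl (64 * 2189) (64 * 2202) :=
  w203

theorem c51 : Seg tbl (64 * 2209) (64 * 2212) :=
  w204

theorem c52 : Seg tbl (64 * 2221) (64 * 2231) :=
  w205

theorem c53 : Seg tbl (64 * 2376) (64 * 2377) :=
  w206

theorem c54 : Seg tbl (64 * 2640) (64 * 2644) :=
  w207

theorem c55 : Seg tbl (64 * 2657) (64 * 2666) :=
  w208

theorem c56 : Seg tbl (64 * 2670) (64 * 2674) :=
  w209

theorem c57 : Seg tbl (64 * 2676) (64 * 2680) :=
  w210

theorem cl_seg : ∀ p ∈ cl, Seg tbl (64 * p.1) (64 * p.2) := by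
  simp only [cl, List.forall_mem_cons]
  exact ⟨c0, c1, c2, c3, c4, c5, c6, c7, c8, c9, c10, c11, c12, c13, c14, c15, c16, c17, c18, c19, c20, c21, c22, c23, c24, c25, c26, c27, c28, c29, c30, c31, c32, c33, c34, c35, c36, c37, c38, c39, c40, c41, c42, c43, c44, c45, c46, c47, c48, c49, c50, c51, c52, c53, c54, c55, c56, c57, by simp⟩

end Pool.Agent.H65.Kn
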