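import Pool.Agent.H65.Kn.All

/-!
# The compact set of the certificate
-/

set_option autoImplicit false

namespace Pool.Agent.H65.Kn

/-- The compact set (closed intervals of the list). -/
def Kc : Set ℝ := {X | ∃ p ∈ cl, (p.1 : ℝ) ≤ X ∧ X ≤ p.2}

theorem kc_good (X : ℝ) (hX : X ∈ Kc) : Good tbl X := by
  obtain ⟨p, hp, h1, h2⟩ := hX
  refine cl_seg p hp X ?_ ?_
  · push_cast; linarith
  · push_cast; linarith

lemma tbl_lt : tbl < 2 ^ (24 * 58) := by decide +kernel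

lemma tbl_ok : ∀ v < 58, (tbl >>> (24 * v)) % 16777216 / 4096 ≤ 3000 ∧
    (tbl >>> (24 * v)) % 16777216 % 4096 ≤ 3000 ∧
    (3000 - (tbl >>> (24 * v)) % 16777216 / 4096,
      3000 - (tbl >>> (24 * v)) % 16777216 % 4096) ∈ cl := by decide +kernel

lemma cl_le : ∀ p ∈ cl, 1 ≤ p.1 ∧ p.2 ≤ 2999 := by decide +kernel

theorem ow_kc : Ow tbl ⊆ Kc := by
  rintro X ⟨v, h1, h2⟩
  by_cases hv : v < 58
  · obtain ⟨a1, a2, a3⟩ := tbl_ok v hv
    refine ⟨_, a3, ?_, ?_⟩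
    · push_cast [Nat.cast_sub a1]
      exact h1.le
    · push_cast [Nat.cast_sub a2]
      exact h2.le
  · push Not at hv
    have h0 : tbl >>> (24 * v) = 0 := by
      rw [Nat.shiftRight_eq_div_pow]
      apply Nat.div_eq_of_lt
      calc tbl < 2 ^ (24 * 58) := tbl_lt
        _ ≤ 2 ^ (24 * v) := Nat.pow_le_pow_right (by norm_num) (by omega)
    rw [h0] at h1 h2
    norm_num at h1 h2
    linarith

lemma kc_mem {X : ℝ} (h : X ∈ Kc) : 0 < X ∧ X < 3000 := by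
  obtain ⟨p, hp, h1, h2⟩ := h
  obtain ⟨a1, a2⟩ := cl_le p hp
  have b1 : (1 : ℝ) ≤ p.1 := by exact_mod_cast a1
  have b2 : (p.2 : ℝ) ≤ 2999 := by exact_mod_cast a2
  constructor <;> linarith

lemma kc_compact : IsCompact Kc := by
  have h : Kc = ⋃ p ∈ {p : ℕ × ℕ | p ∈ cl}, Set.Icc (p.1 : ℝ) p.2 := by
    ext X
    simp only [Kc, Set.mem_iUnion, Set.mem_Icc, exists_prop]
    rfl
  rw [h]
  exact (List.finite_toSet cl).isCompact_biUnion fun p _ => isCompact_Icc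

lemma ow_open (T : ℕ) : IsOpen (Ow T) := by
  have h : Ow T = ⋃ v : ℕ, Set.Ioo ((3000 : ℝ) - (((T >>> (24 * v)) % 16777216 / 4096 : ℕ) : ℝ))
      ((3000 : ℝ) - (((T >>> (24 * v)) % 16777216 % 4096 : ℕ) : ℝ)) := by
    ext X
    simp [Ow]
  rw [h]
  exact isOpen_iUnion fun v => isOpen_Ioo

lemma ow_ne : Set.Ioo (120 : ℝ) 124 ⊆ Ow tbl := by
  intro X hX
  refine ⟨0, ?_, ?_⟩
  · have h : (tbl >>> (24 * 0)) % 16777216 / 4096 = 2880 := by decide +kernel
    rw [h]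
    have := hX.1
    push_cast
    linarith
  · have h : (tbl >>> (24 * 0)) % 16777216 % 4096 = 2876 := by decide +kernel
    rw [h]
    have := hX.2
    push_cast
    linarith

end Pool.Agent.H65.Kn
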