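import Mathlib.Data.Nat.Notation
import Mathlib.Tactic.TypeStar

/-!
# A checking machine for covers by cylinder pieces (digits 0, 1, 3, ratio 2/5)

Positions are natural numbers: in a window of depth `t` the unit is `1/(64 * 2^t)` cell, the hull is
`3000` cells, and a position is stored as its distance `R` to the right end of the hull.
-/

set_option autoImplicit false

namespace Pool.Agent.H65.Kn

/-- A suspended window: left end, length, covered part, positions. -/
inductive Fr where
  | mk : Nat → Nat → Nat → List Nat → Fr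

/-- Continuations of the checking machine. -/
abbrev Kt := Nat → Nat → Nat → Nat → List Nat → List Fr → Bool

/-- Entry of a list, `0` beyond the end. -/
noncomputable def nth (l : List Nat) : Nat → Nat :=
  List.rec (motive := fun _ => Nat → Nat) (fun _ => 0)
    (fun x _ ih => Nat.rec (motive := fun _ => Nat) x (fun j _ => ih j)) l

/-- Piece of the cover: position `R`, table entry `e`. -/
noncomputable def opPiece (k : Kt) (pw a h cur : Nat) (ps : List Nat) (st : List Fr)
    (R e : Nat) : Bool :=
  Bool.rec (motive := fun _ => Bool)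
    (k (Nat.mul 2 pw) cur (Nat.mul 5 (Nat.sub (Nat.sub R (Nat.mul (Nat.div e 4096) pw)) cur)) 0 []
      (Fr.mk a h (Nat.sub R (Nat.mul (Nat.mod e 4096) pw)) ps :: st))
    (k pw a h (Nat.sub R (Nat.mul (Nat.mod e 4096) pw)) ps st)
    (Nat.ble (Nat.succ R) (Nat.add cur (Nat.mul (Nat.div e 4096) pw)))

/-- New position, from the parent window. -/
noncomputable def opPush (k : Kt) (pw a h cur : Nat) (ps : List Nat) (st : List Fr)
    (v : Nat) : Bool :=
  List.rec (motive := fun _ => Bool) false
    (fun f _ _ => Fr.rec (motive := fun _ => Bool) (fun _ _ _ pps =>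
      k pw a h cur ((Nat.sub (Nat.mul 5 (Nat.sub (nth pps (Nat.div v 3)) a))
        (Nat.mul (Nat.div (Nat.succ (Nat.mul 3 (Nat.mod v 3))) 2) (Nat.mul 1500 pw))) :: ps) st) f)
    st

/-- End of a window. -/
noncomputable def opEnd (k : Kt) (pw a h cur : Nat) (ps : List Nat) (st : List Fr) : Bool :=
  Bool.rec (motive := fun _ => Bool)
    (k (Nat.mul 2 pw) cur (Nat.mul 5 (Nat.sub h cur)) 0 [] (Fr.mk a h (Nat.succ h) ps :: st))
    (List.rec (motive := fun _ => Bool) true
      (fun f st' _ => Fr.rec (motive := fun _ => Bool) (fun a' h' cur' ps' =>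
        k (Nat.div pw 2) a' h' cur' ps' st') f) st)
    (Nat.ble (Nat.succ h) cur)

/-- One operation. -/
noncomputable def stepK (T op : Nat) (k : Kt) (pw a h cur : Nat) (ps : List Nat)
    (st : List Fr) : Bool :=
  Nat.rec (motive := fun _ => Bool)
    (opPiece k pw a h cur ps st (nth ps (Nat.mod (Nat.div op 3) 32))
      (Nat.mod (Nat.shiftRight T (Nat.mul 24 (Nat.div op 96))) 16777216))
    (fun t _ => Nat.rec (motive := fun _ => Bool)
      (opPush k pw a h cur ps st (Nat.div op 3))
      (fun _ _ => opEnd k pw a h cur ps st) t)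
    (Nat.mod op 3)

/-- A block of operations. -/
noncomputable def blk (T m : Nat) : Nat → Kt → Kt :=
  Nat.rec (motive := fun _ => Nat → Kt → Kt)
    (fun _ k => k)
    (fun _ ih n k => stepK T (Nat.mod n 8192) (ih (Nat.div n 8192) k)) m

/-- The checking machine. -/
noncomputable def run (T : Nat) (ops : List Nat) : Kt :=
  List.rec (motive := fun _ => Kt) (fun _ _ _ _ _ _ => false)
    (fun n _ ih => blk T 64 n ih) ops

/-- Check of the window of length `l / 64` cells starting at `s / 64`. -/
noncomputable def chk (T s l : Nat) (ops : List Nat) : Bool :=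
  run T ops 128 0 (Nat.mul 5 l) 0 [] [Fr.mk 0 l (Nat.succ l) [Nat.sub 192000 s]]

end Pool.Agent.H65.Kn
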