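import Mathlib
import Pool.Agent.H65.Kn.Mach

/-!
# Soundness of the checking machine
-/

set_option autoImplicit false

namespace Pool.Agent.H65.Kn

/-- The expanding map of digit `d`, in cells (`3000` cells are `[0,2]`). -/
noncomputable def G (d : ℕ) (X : ℝ) : ℝ := (5 * X - 3000 * d) / 2

/-- Composition along a word (first letter first). -/
noncomputable def Gw (w : List ℕ) (X : ℝ) : ℝ := w.foldl (fun Y d => G d Y) X

/-- Admissible words. -/
def Dg (w : List ℕ) : Prop := ∀ d ∈ w, d = 0 ∨ d = 1 ∨ d = 3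

/-- The open set coded by the table `T`. -/
def Ow (T : ℕ) : Set ℝ :=
  {X | ∃ v : ℕ, (3000 : ℝ) - (((T >>> (24 * v)) % 16777216 / 4096 : ℕ) : ℝ) < X ∧
    X < (3000 : ℝ) - (((T >>> (24 * v)) % 16777216 % 4096 : ℕ) : ℝ)}

/-- Some nonempty word leads into the open set. -/
def Good (T : ℕ) (X : ℝ) : Prop := ∃ w : List ℕ, w ≠ [] ∧ Dg w ∧ Gw w X ∈ Ow T

/-- A stored position is right. -/
def Val (x0 : ℝ) (t : ℕ) (R : ℕ) : Prop :=
  R = 0 ∨ ∃ w : List ℕ, w.length = t ∧ Dg w ∧ ∀ y : ℝ,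
    Gw w (x0 + y / (64 * 5 ^ t)) = (3000 * (64 * 2 ^ t) - R + y) / (64 * 2 ^ t)

/-- The part `[a,b]` of the window is covered. -/
def Cov (T : ℕ) (x0 : ℝ) (t a b : ℕ) : Prop :=
  t ≠ 0 → ∀ y : ℝ, (a : ℝ) ≤ y → y ≤ b → Good T (x0 + y / (64 * 5 ^ t))

/-- The stack is right. -/
def VOK : ℕ → ℝ → ℕ → List Fr → Prop
  | _, _, _, [] => True
  | 0, _, _, _ :: _ => False
  | t + 1, x0, a, Fr.mk a' _ _ ps' :: st =>
      (∀ R ∈ ps', Val (x0 - a / (64 * 5 ^ t)) t R) ∧ VOK t (x0 - a / (64 * 5 ^ t)) a' st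

/-- All that remains on the stack is covered. -/
def FIN (T : ℕ) : ℕ → ℝ → ℕ → List Fr → Prop
  | _, _, _, [] => True
  | 0, _, _, _ :: _ => False
  | t + 1, x0, a, Fr.mk a' h' cur' _ :: st =>
      Cov T (x0 - a / (64 * 5 ^ t)) t cur' h' ∧ FIN T t (x0 - a / (64 * 5 ^ t)) a' st

/-- Soundness of a continuation. -/
def Snd (T : ℕ) (k : Kt) : Prop :=
  ∀ (t : ℕ) (x0 : ℝ) (a h cur : ℕ) (ps : List ℕ) (st : List Fr),
    k (64 * 2 ^ t) a h cur ps st = true → VOK t x0 a st → (∀ R ∈ ps, Val x0 t R) →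
    Cov T x0 t cur h ∧ FIN T t x0 a st

lemma val_zero (x0 : ℝ) (t : ℕ) : Val x0 t 0 := Or.inl rfl

lemma nth_mem (l : List ℕ) : ∀ i, nth l i = 0 ∨ nth l i ∈ l := by
  induction l with
  | nil => intro i; left; rfl
  | cons x l ih =>
    intro i
    cases i with
    | zero => right; simp [nth]
    | succ j =>
      rcases ih j with h | h
      · left; simpa [nth] using h
      · right; exact List.mem_cons_of_mem _ (by simpa [nth] using h)

lemma val_nth {x0 : ℝ} {t : ℕ} {ps : List ℕ} (h : ∀ R ∈ ps, Val x0 t R) (i : ℕ) :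
    Val x0 t (nth ps i) := by
  rcases nth_mem ps i with h0 | h1
  · rw [h0]; exact val_zero _ _
  · exact h _ h1

/-- From a child window to a part of the parent. -/
lemma cov_child {T : ℕ} {x0 : ℝ} {t cur b : ℕ} (hb : cur ≤ b)
    (hc : Cov T (x0 + cur / (64 * 5 ^ t)) (t + 1) 0 (5 * (b - cur))) :
    ∀ y : ℝ, (cur : ℝ) ≤ y → y ≤ b → Good T (x0 + y / (64 * 5 ^ t)) := by
  intro y h1 h2
  have h3 := hc (Nat.succ_ne_zero t) (5 * (y - cur)) (by push_cast; linarith)
    (by push_cast [Nat.cast_sub hb]; linarith)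
  have h4 : x0 + (cur : ℝ) / (64 * 5 ^ t) + 5 * (y - cur) / (64 * 5 ^ (t + 1))
      = x0 + y / (64 * 5 ^ t) := by
    have h5 : (5 : ℝ) ^ t ≠ 0 := by positivity
    rw [pow_succ]
    field_simp
    ring
  rwa [h4] at h3

lemma vok_child {t : ℕ} {x0 : ℝ} {a h c cur : ℕ} {ps : List ℕ} {st : List Fr}
    (hv : VOK t x0 a st) (hp : ∀ R ∈ ps, Val x0 t R) :
    VOK (t + 1) (x0 + cur / (64 * 5 ^ t)) cur (Fr.mk a h c ps :: st) := by
  have h1 : x0 + (cur : ℝ) / (64 * 5 ^ t) - cur / (64 * 5 ^ t) = x0 := by ring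
  refine ⟨?_, ?_⟩
  · rw [h1]; exact hp
  · rw [h1]; exact hv

lemma fin_child {T t : ℕ} {x0 : ℝ} {a h c cur : ℕ} {ps : List ℕ} {st : List Fr}
    (hf : FIN T (t + 1) (x0 + cur / (64 * 5 ^ t)) cur (Fr.mk a h c ps :: st)) :
    Cov T x0 t c h ∧ FIN T t x0 a st := by
  have h1 : x0 + (cur : ℝ) / (64 * 5 ^ t) - cur / (64 * 5 ^ t) = x0 := by ring
  obtain ⟨h2, h3⟩ := hf
  rw [h1] at h2 h3
  exact ⟨h2, h3⟩

lemma good_piece {T : ℕ} {x0 : ℝ} {t R : ℕ} (ht : t ≠ 0) (hR : Val x0 t R) (v : ℕ) (y : ℝ)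
    (h0 : 0 ≤ y)
    (h1 : (R : ℝ) < y + ((T >>> (24 * v)) % 16777216 / 4096 : ℕ) * (64 * 2 ^ t))
    (h2 : y < ((R - ((T >>> (24 * v)) % 16777216 % 4096) * (64 * 2 ^ t) : ℕ) : ℝ)) :
    Good T (x0 + y / (64 * 5 ^ t)) := by
  set l := (T >>> (24 * v)) % 16777216 / 4096 with hl
  set m := (T >>> (24 * v)) % 16777216 % 4096 with hm
  have h3 : 0 < R - m * (64 * 2 ^ t) := by
    have : (0 : ℝ) < ((R - m * (64 * 2 ^ t) : ℕ) : ℝ) := lt_of_le_of_lt h0 h2
    exact_mod_cast this
  have h4 : m * (64 * 2 ^ t) ≤ R := by omega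
  rw [Nat.cast_sub h4] at h2
  push_cast at h2
  rcases hR with hR | ⟨w, hw1, hw2, hw3⟩
  · omega
  · refine ⟨w, ?_, hw2, ?_⟩
    · intro h; rw [h] at hw1; simp at hw1; exact ht hw1.symm
    · rw [hw3 y]
      have hpos : (0 : ℝ) < 64 * 2 ^ t := by positivity
      refine ⟨v, ?_, ?_⟩
      · rw [lt_div_iff₀ hpos]
        rw [← hl]
        nlinarith
      · rw [div_lt_iff₀ hpos]
        rw [← hm]
        nlinarith

lemma snd_piece {T : ℕ} {k : Kt} (hk : Snd T k) (t : ℕ) (x0 : ℝ) (a h cur : ℕ) (ps : List ℕ)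
    (st : List Fr) (i v : ℕ)
    (hr : opPiece k (64 * 2 ^ t) a h cur ps st (nth ps i)
      (Nat.mod (Nat.shiftRight T (Nat.mul 24 v)) 16777216) = true)
    (hv : VOK t x0 a st) (hp : ∀ R ∈ ps, Val x0 t R) :
    Cov T x0 t cur h ∧ FIN T t x0 a st := by
  have hval := val_nth hp i
  set R := nth ps i with hR
  have he : Nat.mod (Nat.shiftRight T (Nat.mul 24 v)) 16777216
      = (T >>> (24 * v)) % 16777216 := rfl
  rw [he] at hr
  set e := (T >>> (24 * v)) % 16777216 with hee
  unfold opPiece at hr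
  have e1 : Nat.mul (Nat.div e 4096) (64 * 2 ^ t) = e / 4096 * (64 * 2 ^ t) := rfl
  have e2 : Nat.mul (Nat.mod e 4096) (64 * 2 ^ t) = e % 4096 * (64 * 2 ^ t) := rfl
  rw [e1, e2] at hr
  cases hb : Nat.ble (Nat.succ R) (Nat.add cur (e / 4096 * (64 * 2 ^ t))) with
  | false =>
    rw [hb] at hr
    have hb' : ¬ (R + 1 ≤ cur + e / 4096 * (64 * 2 ^ t)) := by
      intro hh
      have := Nat.ble_eq_true_of_le hh
      rw [show Nat.ble (R + 1) (cur + e / 4096 * (64 * 2 ^ t))
        = Nat.ble (Nat.succ R) (Nat.add cur (e / 4096 * (64 * 2 ^ t))) from rfl, hb] at this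
      exact Bool.noConfusion this
    have hr' : k (64 * 2 ^ (t + 1)) cur
        (5 * (R - e / 4096 * (64 * 2 ^ t) - cur)) 0 []
        (Fr.mk a h (R - e % 4096 * (64 * 2 ^ t)) ps :: st) = true := by
      have : (64 * 2 ^ (t + 1) : ℕ) = 2 * (64 * 2 ^ t) := by ring
      rw [this]; exact hr
    obtain ⟨c1, c2⟩ := hk (t + 1) (x0 + cur / (64 * 5 ^ t)) cur _ 0 []
      (Fr.mk a h (R - e % 4096 * (64 * 2 ^ t)) ps :: st) hr' (vok_child hv hp)
      (by simp)
    obtain ⟨c3, c4⟩ := fin_child c2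
    refine ⟨?_, c4⟩
    intro ht y h1 h2
    have hbl : cur ≤ R - e / 4096 * (64 * 2 ^ t) := by omega
    by_cases hy : y ≤ ((R - e / 4096 * (64 * 2 ^ t) : ℕ) : ℝ)
    · exact cov_child hbl c1 y h1 hy
    · push Not at hy
      by_cases hy2 : y < ((R - e % 4096 * (64 * 2 ^ t) : ℕ) : ℝ)
      · refine good_piece ht hval v y (le_trans (Nat.cast_nonneg _) h1) ?_ ?_
        · have : ((R : ℝ)) ≤ ((R - e / 4096 * (64 * 2 ^ t) : ℕ) : ℝ)
              + (e / 4096 : ℕ) * (64 * 2 ^ t) := by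
            have h9 : R ≤ (R - e / 4096 * (64 * 2 ^ t)) + e / 4096 * (64 * 2 ^ t) := by omega
            exact_mod_cast h9
          rw [← hee]
          linarith
        · rw [← hee]; exact hy2
      · push Not at hy2
        exact c3 ht y hy2 h2
  | true =>
    rw [hb] at hr
    have hb' : R + 1 ≤ cur + e / 4096 * (64 * 2 ^ t) := Nat.le_of_ble_eq_true hb
    have hr' : k (64 * 2 ^ t) a h (R - e % 4096 * (64 * 2 ^ t)) ps st = true := hr
    obtain ⟨c1, c2⟩ := hk t x0 a h _ ps st hr' hv hp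
    refine ⟨?_, c2⟩
    intro ht y h1 h2
    by_cases hy2 : y < ((R - e % 4096 * (64 * 2 ^ t) : ℕ) : ℝ)
    · refine good_piece ht hval v y (le_trans (Nat.cast_nonneg _) h1) ?_ ?_
      · have : ((R : ℝ)) + 1 ≤ (cur : ℝ) + (e / 4096 : ℕ) * (64 * 2 ^ t) := by exact_mod_cast hb'
        rw [← hee]
        linarith
      · rw [← hee]; exact hy2
    · push Not at hy2
      exact c1 ht y hy2 h2

lemma gw_append (w : List ℕ) (d : ℕ) (X : ℝ) : Gw (w ++ [d]) X = G d (Gw w X) := by
  simp [Gw, List.foldl_append]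

lemma snd_push {T : ℕ} {k : Kt} (hk : Snd T k) (t : ℕ) (x0 : ℝ) (a h cur : ℕ) (ps : List ℕ)
    (st : List Fr) (v : ℕ)
    (hr : opPush k (64 * 2 ^ t) a h cur ps st v = true)
    (hv : VOK t x0 a st) (hp : ∀ R ∈ ps, Val x0 t R) :
    Cov T x0 t cur h ∧ FIN T t x0 a st := by
  cases st with
  | nil => exact absurd hr (by simp [opPush])
  | cons f st =>
    obtain ⟨a', h', cur', pps⟩ := f
    cases t with
    | zero => exact absurd hv (by simp [VOK])
    | succ t =>
      have hval := val_nth hv.1 (v / 3)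
      set R := nth pps (v / 3) with hR
      have hr' : k (64 * 2 ^ (t + 1)) a h cur
          ((5 * (R - a) - ((3 * (v % 3) + 1) / 2) * (1500 * (64 * 2 ^ (t + 1)))) :: ps)
          (Fr.mk a' h' cur' pps :: st) = true := hr
      set R' := 5 * (R - a) - ((3 * (v % 3) + 1) / 2) * (1500 * (64 * 2 ^ (t + 1))) with hR'
      refine hk (t + 1) x0 a h cur _ _ hr' hv ?_
      intro Q hQ
      rcases List.mem_cons.1 hQ with hQ | hQ
      · rw [hQ]
        by_cases h0 : R' = 0
        · left; exact h0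
        · right
          have haR : a ≤ R := by omega
          rcases hval with hz | ⟨w, hw1, hw2, hw3⟩
          · omega
          · obtain ⟨d, hd, he⟩ : ∃ d : ℕ, (d = 0 ∨ d = 1 ∨ d = 3) ∧
                (3 * (v % 3) + 1) / 2 + d = 3 := by
              have h3 : v % 3 < 3 := Nat.mod_lt _ (by norm_num)
              interval_cases hh : v % 3
              · exact ⟨3, by simp, by norm_num⟩
              · exact ⟨1, by simp, by norm_num⟩
              · exact ⟨0, by simp, by norm_num⟩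
            refine ⟨w ++ [d], by simp [hw1], ?_, ?_⟩
            · intro q hq
              rcases List.mem_append.1 hq with hq | hq
              · exact hw2 q hq
              · rw [List.mem_singleton.1 hq]; exact hd
            · intro y
              have h5 : (5 : ℝ) ^ t ≠ 0 := by positivity
              have hX : x0 + y / (64 * 5 ^ (t + 1))
                  = (x0 - (a : ℝ) / (64 * 5 ^ t)) + (a + y / 5) / (64 * 5 ^ t) := by
                rw [pow_succ]; field_simp; ring
              rw [gw_append, hX, hw3]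
              have hR'' : (R' : ℝ) = 5 * ((R : ℝ) - a) - (3 - d) * (1500 * (64 * 2 ^ (t + 1))) := by
                have e1 : ((3 * (v % 3) + 1) / 2 : ℕ) = 3 - d := by omega
                have hd3 : d ≤ 3 := by omega
                have e2 : R' + (3 - d) * (1500 * (64 * 2 ^ (t + 1))) = 5 * (R - a) := by
                  rw [e1] at hR'
                  omega
                have e3 : ((R' + (3 - d) * (1500 * (64 * 2 ^ (t + 1))) : ℕ) : ℝ)
                    = ((5 * (R - a) : ℕ) : ℝ) := by rw [e2]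
                push_cast [Nat.cast_sub haR, Nat.cast_sub hd3] at e3
                linarith
              rw [hR'']
              unfold G
              have h2 : (2 : ℝ) ^ t ≠ 0 := by positivity
              rw [pow_succ]
              field_simp
              ring
      · exact hp Q hQ

lemma snd_end {T : ℕ} {k : Kt} (hk : Snd T k) (t : ℕ) (x0 : ℝ) (a h cur : ℕ) (ps : List ℕ)
    (st : List Fr)
    (hr : opEnd k (64 * 2 ^ t) a h cur ps st = true)
    (hv : VOK t x0 a st) (hp : ∀ R ∈ ps, Val x0 t R) :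
    Cov T x0 t cur h ∧ FIN T t x0 a st := by
  unfold opEnd at hr
  cases hb : Nat.ble (Nat.succ h) cur with
  | true =>
    rw [hb] at hr
    have hb' : h + 1 ≤ cur := Nat.le_of_ble_eq_true hb
    have hvac : Cov T x0 t cur h := by
      intro _ y h1 h2
      have : (h : ℝ) + 1 ≤ cur := by exact_mod_cast hb'
      linarith
    refine ⟨hvac, ?_⟩
    cases st with
    | nil => cases t <;> trivial
    | cons f st =>
      obtain ⟨a', h', cur', ps'⟩ := f
      cases t with
      | zero => exact absurd hv (by simp [VOK])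
      | succ t =>
        have hr' : k (64 * 2 ^ t) a' h' cur' ps' st = true := by
          have : (64 * 2 ^ t : ℕ) = Nat.div (64 * 2 ^ (t + 1)) 2 := by
            show 64 * 2 ^ t = (64 * 2 ^ (t + 1)) / 2
            rw [pow_succ]; omega
          rw [this]; exact hr
        exact hk t (x0 - a / (64 * 5 ^ t)) a' h' cur' ps' st hr' hv.2 hv.1
  | false =>
    rw [hb] at hr
    have hb' : cur ≤ h := by
      by_contra hh
      push Not at hh
      have := Nat.ble_eq_true_of_le (Nat.succ_le_of_lt hh)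
      rw [hb] at this
      exact Bool.noConfusion this
    have hr' : k (64 * 2 ^ (t + 1)) cur (5 * (h - cur)) 0 []
        (Fr.mk a h (h + 1) ps :: st) = true := by
      have : (64 * 2 ^ (t + 1) : ℕ) = 2 * (64 * 2 ^ t) := by ring
      rw [this]; exact hr
    obtain ⟨c1, c2⟩ := hk (t + 1) (x0 + cur / (64 * 5 ^ t)) cur _ 0 []
      (Fr.mk a h (h + 1) ps :: st) hr' (vok_child hv hp) (by simp)
    obtain ⟨_, c4⟩ := fin_child c2
    exact ⟨fun _ => cov_child hb' c1, c4⟩

lemma snd_step {T op : ℕ} {k : Kt} (hk : Snd T k) : Snd T (stepK T op k) := by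
  intro t x0 a h cur ps st hr hv hp
  unfold stepK at hr
  rcases hm : Nat.mod op 3 with _ | m
  · rw [hm] at hr
    have : Nat.mul 24 (Nat.div op 96) = Nat.mul 24 (op / 96) := rfl
    exact snd_piece hk t x0 a h cur ps st _ (op / 96) hr hv hp
  · rw [hm] at hr
    cases m with
    | zero => exact snd_push hk t x0 a h cur ps st _ hr hv hp
    | succ m => exact snd_end hk t x0 a h cur ps st hr hv hp

lemma snd_blk {T : ℕ} (m : ℕ) : ∀ (n : ℕ) {k : Kt}, Snd T k → Snd T (blk T m n k) := by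
  induction m with
  | zero => intro n k hk; exact hk
  | succ m ih => intro n k hk; exact snd_step (ih _ hk)

lemma snd_run (T : ℕ) (ops : List ℕ) : Snd T (run T ops) := by
  induction ops with
  | nil => intro t x0 a h cur ps st hr; exact absurd hr (by simp [run])
  | cons n ops ih => exact snd_blk 64 n ih

/-- The interval `[x/64, y/64]` (cells) consists of good points. -/
def Seg (T x y : ℕ) : Prop := ∀ X : ℝ, (x : ℝ) / 64 ≤ X → X ≤ (y : ℝ) / 64 → Good T X

theorem seg_chk (T s l : ℕ) (ops : List ℕ) (h : chk T s l ops = true) : Seg T s (s + l) := by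
  intro X h1 h2
  have hr : run T ops (64 * 2 ^ 1) 0 (5 * l) 0 [] [Fr.mk 0 l (l + 1) [192000 - s]] = true := h
  obtain ⟨c1, -⟩ := snd_run T ops 1 ((s : ℝ) / 64) 0 (5 * l) 0 []
    [Fr.mk 0 l (l + 1) [192000 - s]] hr
    (by
      refine ⟨?_, ?_⟩
      · intro R hR
        rw [List.mem_singleton.1 hR]
        by_cases hs : s ≤ 192000
        · right
          refine ⟨[], rfl, by intro d hd; simp at hd, ?_⟩
          intro y
          simp only [Gw, List.foldl_nil, pow_zero, mul_one]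
          push_cast [Nat.cast_sub hs]
          ring
        · left; omega
      · simp [VOK])
    (by simp)
  have h3 := c1 one_ne_zero (5 * (64 * X - s)) (by push_cast; linarith)
    (by push_cast at h2 ⊢; linarith)
  have h4 : (s : ℝ) / 64 + 5 * (64 * X - s) / (64 * 5 ^ 1) = X := by ring
  rwa [h4] at h3

theorem Seg.trans {T x y z : ℕ} (h1 : Seg T x y) (h2 : Seg T y z) : Seg T x z := by
  intro X hx hz
  rcases le_total X ((y : ℝ) / 64) with h | h
  · exact h1 X hx h
  · exact h2 X h hz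

end Pool.Agent.H65.Kn
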