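import Mathlib
import Pool.Agent.H65.Kn.Sound

/-!
# Orbits for a general ratio

`gl t d X = X / t - 1500 d` is the expanding map of digit `d` for the ratio `t`, in cells of
length `1/1500`.
-/

set_option autoImplicit false

namespace Pool.Agent.H65.Kn

open Filter Topology

/-- The set of all sums of `d_k t^k`, `k ≥ 1`, with digits `0, 1, 3`. -/
def Lam (t : ℝ) : Set ℝ :=
  {x : ℝ | ∃ i : ℕ → ℕ, (∀ k, i k = 0 ∨ i k = 1 ∨ i k = 3) ∧
    x = ∑' k : ℕ, (i k : ℝ) * t ^ (k + 1)}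

noncomputable def gl (t : ℝ) (d : ℕ) (X : ℝ) : ℝ := X / t - 1500 * d

noncomputable def glw (t : ℝ) (w : List ℕ) (X : ℝ) : ℝ := w.foldl (fun Y d => gl t d Y) X

/-- Points (in cells) with a nonempty word leading into `O`. -/
def Hit (O : Set ℝ) (t : ℝ) : Set ℝ := {X | ∃ w : List ℕ, w ≠ [] ∧ Dg w ∧ glw t w X ∈ O}

lemma glw_nil (t X : ℝ) : glw t [] X = X := rfl

lemma glw_cons (t : ℝ) (d : ℕ) (w : List ℕ) (X : ℝ) : glw t (d :: w) X = glw t w (gl t d X) := rfl

lemma glw_append (t : ℝ) (w w' : List ℕ) (X : ℝ) :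
    glw t (w ++ w') X = glw t w' (glw t w X) := by
  simp [glw, List.foldl_append]

lemma gl_two_fifths (d : ℕ) (X : ℝ) : gl (2 / 5) d X = G d X := by
  unfold gl G; ring

lemma glw_two_fifths (w : List ℕ) : ∀ X : ℝ, glw (2 / 5) w X = Gw w X := by
  induction w with
  | nil => intro X; rfl
  | cons d w ih =>
    intro X
    rw [glw_cons, ih, gl_two_fifths]
    rfl

lemma hit_two_fifths (T : ℕ) (X : ℝ) : X ∈ Hit (Ow T) (2 / 5) ↔ Good T X := by
  unfold Hit Good
  simp only [Set.mem_setOf_eq, glw_two_fifths]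

lemma dg_cons {d : ℕ} {w : List ℕ} : Dg (d :: w) ↔ (d = 0 ∨ d = 1 ∨ d = 3) ∧ Dg w := by
  unfold Dg
  simp

lemma dg_append {w w' : List ℕ} (h : Dg w) (h' : Dg w') : Dg (w ++ w') := by
  intro d hd
  rcases List.mem_append.1 hd with h1 | h1
  · exact h d h1
  · exact h' d h1

lemma dg_le {d : ℕ} (h : d = 0 ∨ d = 1 ∨ d = 3) : (d : ℝ) ≤ 3 := by
  rcases h with h | h | h <;> rw [h] <;> norm_num

/-- If a later point of an orbit is bounded by `M`, so is the first one. -/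
lemma glw_bound {t M : ℝ} (ht : 0 < t) (hM : t * (M + 4500) ≤ M) (w : List ℕ) :
    ∀ X : ℝ, Dg w → |glw t w X| ≤ M → |X| ≤ M := by
  induction w with
  | nil => intro X _ h; exact h
  | cons d w ih =>
    intro X hd h
    rw [dg_cons] at hd
    have h1 := ih (gl t d X) hd.2 h
    have h2 : X = t * (gl t d X + 1500 * d) := by
      unfold gl; field_simp; ring
    have h3 := dg_le hd.1
    have h4 : (0 : ℝ) ≤ d := Nat.cast_nonneg _
    rw [h2, abs_mul, abs_of_pos ht]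
    have h5 : |gl t d X + 1500 * d| ≤ M + 4500 := by
      rw [abs_le] at h1 ⊢
      constructor <;> linarith [h1.1, h1.2]
    calc t * |gl t d X + 1500 * d| ≤ t * (M + 4500) := by gcongr
      _ ≤ M := hM

lemma hit_bound {O : Set ℝ} (hO : ∀ X ∈ O, |X| ≤ 3000) {t M : ℝ} (ht : 0 < t)
    (hM : t * (M + 4500) ≤ M) (hM2 : 3000 ≤ M) {X : ℝ} (hX : X ∈ Hit O t) : |X| ≤ M := by
  obtain ⟨w, -, hw, h⟩ := hX
  exact glw_bound ht hM w X hw ((hO _ h).trans hM2)

lemma hit_step {O : Set ℝ} {t : ℝ} (hO : O ⊆ Hit O t) {X : ℝ} (hX : X ∈ Hit O t) :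
    ∃ d : ℕ, (d = 0 ∨ d = 1 ∨ d = 3) ∧ gl t d X ∈ Hit O t := by
  obtain ⟨w, hw, hd, h⟩ := hX
  cases w with
  | nil => exact absurd rfl hw
  | cons d w =>
    rw [dg_cons] at hd
    refine ⟨d, hd.1, ?_⟩
    by_cases hw' : w = []
    · rw [hw'] at h
      exact hO h
    · exact ⟨w, hw', hd.2, h⟩

/-- A self-reaching bounded set gives points of the set of sums. -/
theorem hit_lam {O : Set ℝ} (hO1 : ∀ X ∈ O, |X| ≤ 3000) {t : ℝ} (ht : 0 < t) (ht1 : t < 1)
    (hO : O ⊆ Hit O t) {X : ℝ} (hX : X ∈ Hit O t) : X / 1500 ∈ Lam t := by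
  choose! f hf1 hf2 using fun (X : ℝ) (hX : X ∈ Hit O t) => hit_step hO hX
  set x : ℕ → ℝ := fun n => Nat.rec X (fun _ Y => gl t (f Y) Y) n with hx
  have hx0 : x 0 = X := rfl
  have hxs : ∀ n, x (n + 1) = gl t (f (x n)) (x n) := fun n => rfl
  have hmem : ∀ n, x n ∈ Hit O t := by
    intro n
    induction n with
    | zero => exact hX
    | succ n ih => rw [hxs]; exact hf2 _ ih
  set M : ℝ := 3000 + 4500 * t / (1 - t) with hM
  have h1t : 0 < 1 - t := by linarith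
  have hMt : t * (M + 4500) ≤ M := by
    have e : M * (1 - t) = 3000 * (1 - t) + 4500 * t := by
      rw [hM]; field_simp
    nlinarith
  have hM2 : 3000 ≤ M := by
    rw [hM]
    have : 0 ≤ 4500 * t / (1 - t) := by positivity
    linarith
  have hb : ∀ n, |x n| ≤ M := fun n => hit_bound hO1 ht hMt hM2 (hmem n)
  have hsum : ∀ n, X / 1500 = ∑ k ∈ Finset.range n, (f (x k) : ℝ) * t ^ (k + 1)
      + t ^ n * (x n / 1500) := by
    intro n
    induction n with
    | zero => simp [hx0]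
    | succ n ih =>
      rw [Finset.sum_range_succ, ih, hxs]
      unfold gl
      rw [pow_succ]
      field_simp
      ring
  refine ⟨fun k => f (x k), fun k => hf1 _ (hmem k), ?_⟩
  have hsm : Summable fun k : ℕ => (f (x k) : ℝ) * t ^ (k + 1) := by
    refine Summable.of_nonneg_of_le (fun k => by positivity)
      (g := fun k => (f (x k) : ℝ) * t ^ (k + 1)) (f := fun k => 3 * t * t ^ k) ?_ ?_
    · intro k
      have h3 := dg_le (hf1 _ (hmem k))
      calc (f (x k) : ℝ) * t ^ (k + 1) ≤ 3 * t ^ (k + 1) := by gcongr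
        _ = 3 * t * t ^ k := by ring
    · exact (summable_geometric_of_lt_one ht.le ht1).mul_left _
  have hlim := hsm.hasSum.tendsto_sum_nat
  have hlim2 : Tendsto (fun n => ∑ k ∈ Finset.range n, (f (x k) : ℝ) * t ^ (k + 1)) atTop
      (𝓝 (X / 1500)) := by
    have h0 : Tendsto (fun n => t ^ n * (x n / 1500)) atTop (𝓝 0) := by
      have h1 : Tendsto (fun n : ℕ => t ^ n * (M / 1500)) atTop (𝓝 (0 * (M / 1500))) :=
        (tendsto_pow_atTop_nhds_zero_of_lt_one ht.le ht1).mul_const _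
      rw [zero_mul] at h1
      refine squeeze_zero_norm (fun n => ?_) h1
      rw [norm_mul, Real.norm_eq_abs, Real.norm_eq_abs, abs_of_nonneg (by positivity : 0 ≤ t ^ n),
        abs_div, abs_of_pos (by norm_num : (0 : ℝ) < 1500)]
      gcongr
      exact hb n
    have h2 : (fun n => ∑ k ∈ Finset.range n, (f (x k) : ℝ) * t ^ (k + 1))
        = fun n => X / 1500 - t ^ n * (x n / 1500) := by
      funext n
      rw [hsum n]; ring
    rw [h2]
    simpa using (tendsto_const_nhds (x := X / 1500)).sub h0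
  exact tendsto_nhds_unique hlim2 hlim

lemma glw_continuousOn (w : List ℕ) :
    ContinuousOn (fun p : ℝ × ℝ => glw p.1 w p.2) {p | 0 < p.1} := by
  have key : ∀ F : ℝ × ℝ → ℝ, ContinuousOn F {p | 0 < p.1} →
      ContinuousOn (fun p : ℝ × ℝ => glw p.1 w (F p)) {p | 0 < p.1} := by
    induction w with
    | nil => intro F hF; exact hF
    | cons d w ih =>
      intro F hF
      refine ih (fun p => gl p.1 d (F p)) ?_
      unfold gl
      refine ContinuousOn.sub ?_ continuousOn_const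
      exact hF.div continuous_fst.continuousOn fun p hp => ne_of_gt hp
  exact key _ continuous_snd.continuousOn

/-- Openness of the reaching relation in ratio and point. -/
lemma hit_isOpen {O : Set ℝ} (hO : IsOpen O) :
    IsOpen {p : ℝ × ℝ | 0 < p.1 ∧ p.2 ∈ Hit O p.1} := by
  have h : {p : ℝ × ℝ | 0 < p.1 ∧ p.2 ∈ Hit O p.1}
      = ⋃ w ∈ {w : List ℕ | w ≠ [] ∧ Dg w},
        ({p : ℝ × ℝ | 0 < p.1} ∩ (fun p : ℝ × ℝ => glw p.1 w p.2) ⁻¹' O) := by
    ext p
    simp only [Hit, Set.mem_setOf_eq, Set.mem_iUnion, Set.mem_inter_iff, Set.mem_preimage]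
    constructor
    · rintro ⟨h1, w, h2, h3, h4⟩
      exact ⟨w, ⟨h2, h3⟩, h1, h4⟩
    · rintro ⟨w, ⟨h2, h3⟩, h1, h4⟩
      exact ⟨h1, w, h2, h3, h4⟩
  rw [h]
  refine isOpen_biUnion fun w _ => ?_
  exact (glw_continuousOn w).isOpen_inter_preimage (isOpen_lt continuous_const continuous_fst) hO

lemma hit_slice_open {O : Set ℝ} (hO : IsOpen O) {t : ℝ} (ht : 0 < t) : IsOpen (Hit O t) := by
  have h1 := (hit_isOpen hO).preimage (f := fun X : ℝ => (t, X)) (by fun_prop)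
  have h2 : (fun X : ℝ => (t, X)) ⁻¹' {p : ℝ × ℝ | 0 < p.1 ∧ p.2 ∈ Hit O p.1} = Hit O t := by
    ext X
    simp [ht]
  rwa [h2] at h1

/-- Compact sets of reaching points stay reaching for nearby ratios. -/
lemma hit_tube {O : Set ℝ} (hO : IsOpen O) {t0 : ℝ} (ht0 : 0 < t0) {C : Set ℝ} (hC : IsCompact C)
    (h : C ⊆ Hit O t0) : ∃ ε > 0, ∀ t : ℝ, |t - t0| < ε → 0 < t ∧ C ⊆ Hit O t := by
  have h1 : ∀ᶠ t in 𝓝 t0, ∀ X ∈ C, 0 < t ∧ X ∈ Hit O t := by
    apply hC.eventually_forall_of_forall_eventually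
    intro X hX
    exact (hit_isOpen hO).mem_nhds ⟨ht0, h hX⟩
  have h2 : ∀ᶠ t in 𝓝 t0, 0 < t := eventually_gt_nhds ht0
  obtain ⟨ε, hε, h3⟩ := Metric.eventually_nhds_iff.1 (h1.and h2)
  refine ⟨ε, hε, fun t ht => ?_⟩
  have h4 := h3 (y := t) (by rwa [Real.dist_eq])
  exact ⟨h4.2, fun X hX => (h4.1 X hX).2⟩

end Pool.Agent.H65.Kn
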