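import Pool.Agent.H65.Kn.Cover
import Pool.Agent.H65.Kn.Orbit

/-!
# Almost every point of the hull reaches the open set (ratio 2/5)
-/

set_option autoImplicit false

namespace Pool.Agent.H65.Kn

open MeasureTheory Filter Topology

lemma ow_sub_hit : Ow tbl ⊆ Hit (Ow tbl) (2 / 5) := by
  intro X hX
  exact (hit_two_fifths tbl X).2 (kc_good X (ow_kc hX))

lemma hit_append {O : Set ℝ} {t : ℝ} {w : List ℕ} (hw : Dg w) {X : ℝ}
    (h : glw t w X ∈ Hit O t) : X ∈ Hit O t := by
  obtain ⟨w', h1, h2, h3⟩ := h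
  refine ⟨w ++ w', by simp [h1], dg_append hw h2, ?_⟩
  rwa [glw_append]

/-- The affine form of a composition at ratio `2/5`. -/
lemma glw_affine (w : List ℕ) : ∃ c : ℝ, ∀ X : ℝ, glw (2 / 5) w X = (5 / 2) ^ w.length * X - c := by
  induction w with
  | nil => exact ⟨0, fun X => by simp [glw_nil]⟩
  | cons d w ih =>
    obtain ⟨c, hc⟩ := ih
    refine ⟨(5 / 2) ^ w.length * (1500 * d) + c, fun X => ?_⟩
    rw [glw_cons, hc, List.length_cons, pow_succ]
    unfold gl
    ring

lemma word_exists (n : ℕ) : ∀ X : ℝ, X ∈ Set.Icc (0 : ℝ) 3000 →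
    ∃ w : List ℕ, w.length = n ∧ Dg w ∧ glw (2 / 5) w X ∈ Set.Icc (0 : ℝ) 3000 := by
  induction n with
  | zero => intro X hX; exact ⟨[], rfl, by intro d hd; simp at hd, hX⟩
  | succ n ih =>
    intro X hX
    have h : ∃ d : ℕ, (d = 0 ∨ d = 1 ∨ d = 3) ∧ gl (2 / 5) d X ∈ Set.Icc (0 : ℝ) 3000 := by
      rcases le_total X 1200 with h1 | h1
      · refine ⟨0, by simp, ?_, ?_⟩ <;> (unfold gl; push_cast; linarith [hX.1])
      · rcases le_total X 1800 with h2 | h2
        · refine ⟨1, by simp, ?_, ?_⟩ <;> (unfold gl; push_cast; linarith)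
        · refine ⟨3, by simp, ?_, ?_⟩ <;> (unfold gl; push_cast; linarith [hX.2])
    obtain ⟨d, hd, h⟩ := h
    obtain ⟨w, h1, h2, h3⟩ := ih _ h
    exact ⟨d :: w, by simp [h1], dg_cons.2 ⟨hd, h2⟩, by rwa [glw_cons]⟩

/-- The points of the hull that never reach. -/
def Bd : Set ℝ := Set.Icc (0 : ℝ) 3000 \ Hit (Ow tbl) (2 / 5)

lemma bd_meas : MeasurableSet Bd :=
  measurableSet_Icc.diff (hit_slice_open (ow_open tbl) (by norm_num)).measurableSet

lemma bd_vol : volume.real Bd ≤ 2996 := by
  have h1 : Bd ⊆ Set.Icc (0 : ℝ) 3000 \ Set.Ioo (120 : ℝ) 124 := by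
    rintro X ⟨h1, h2⟩
    exact ⟨h1, fun h3 => h2 (ow_sub_hit (ow_ne h3))⟩
  have h2 : volume.real (Set.Icc (0 : ℝ) 3000 \ Set.Ioo (120 : ℝ) 124) = 2996 := by
    have hne : volume (Set.Icc (0 : ℝ) 3000) ≠ ⊤ := by simp
    rw [measureReal_sdiff (by intro x hx; exact ⟨by linarith [hx.1], by linarith [hx.2]⟩)
      measurableSet_Ioo hne]
    simp only [Real.volume_real_Icc, Real.volume_real_Ioo]
    norm_num
  rw [← h2]
  refine measureReal_mono h1 ?_
  refine ne_top_of_le_ne_top ?_ (measure_mono Set.sdiff_subset)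
  simp

lemma bd_zero : volume Bd = 0 := by
  by_contra hne
  have hfin : volume Bd ≠ ⊤ := by
    refine ne_top_of_le_ne_top ?_ (measure_mono (Set.sdiff_subset (s := Set.Icc (0 : ℝ) 3000)))
    simp
  have hd := Besicovitch.ae_tendsto_measure_inter_div (volume : Measure ℝ) Bd
  have hd' : ∀ᵐ X ∂(volume.restrict Bd), X ∈ Bd := ae_restrict_mem bd_meas
  have hnz : (volume.restrict Bd) ≠ 0 := by
    intro h
    apply hne
    have := congrArg (fun μ : Measure ℝ => μ Set.univ) h
    simpa using this
  have : NeZero (volume.restrict Bd) := ⟨hnz⟩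
  obtain ⟨X, hX1, hX2⟩ := (hd.and hd').exists
  -- radii
  set r : ℕ → ℝ := fun n => 3000 * (2 / 5 : ℝ) ^ n with hr
  have hrpos : ∀ n, 0 < r n := fun n => by positivity
  have hr0 : Tendsto r atTop (𝓝[>] 0) := by
    rw [tendsto_nhdsWithin_iff]
    refine ⟨?_, Eventually.of_forall fun n => hrpos n⟩
    have := (tendsto_pow_atTop_nhds_zero_of_lt_one (by norm_num : (0 : ℝ) ≤ 2 / 5)
      (by norm_num)).const_mul 3000
    simpa using this
  have ht := hX1.comp hr0
  -- upper bound of the ratio
  have hub : ∀ n, volume (Bd ∩ Metric.closedBall X (r n)) / volume (Metric.closedBall X (r n))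
      ≤ ENNReal.ofReal (5998 / 6000) := by
    intro n
    obtain ⟨w, hw1, hw2, hw3⟩ := word_exists n X hX2.1
    obtain ⟨c, hc⟩ := glw_affine w
    rw [hw1] at hc
    set s : ℝ := (5 / 2 : ℝ) ^ n with hs
    have hspos : 0 < s := by positivity
    have hsr : r n = 3000 / s := by
      rw [hr, hs]
      show 3000 * (2 / 5 : ℝ) ^ n = 3000 / (5 / 2) ^ n
      rw [show (2 / 5 : ℝ) = (5 / 2)⁻¹ by norm_num, inv_pow]
      ring
    set I : Set ℝ := Set.Icc (c / s) ((3000 + c) / s) with hI
    have hXI : c / s ≤ X ∧ X ≤ (3000 + c) / s := by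
      have h1 := hw3.1
      have h2 := hw3.2
      rw [hc] at h1 h2
      constructor
      · rw [div_le_iff₀ hspos]; linarith
      · rw [le_div_iff₀ hspos]; linarith
    have hIsub : I ⊆ Metric.closedBall X (r n) := by
      intro Y hY
      rw [Metric.mem_closedBall, Real.dist_eq, hsr, abs_le]
      have h3 : (3000 + c) / s = c / s + 3000 / s := by ring
      constructor
      · linarith [hY.1, hXI.2]
      · linarith [hY.2, hXI.1]
    -- the part of `Bd` in `I`
    have hBI : Bd ∩ I ⊆ (fun Y => s * Y - c) ⁻¹' Bd := by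
      rintro Y ⟨hY1, hY2⟩
      refine ⟨⟨?_, ?_⟩, ?_⟩
      · show 0 ≤ s * Y - c
        have := hY2.1
        rw [div_le_iff₀ hspos] at this
        linarith
      · show s * Y - c ≤ 3000
        have := hY2.2
        rw [le_div_iff₀ hspos] at this
        linarith
      · intro h
        apply hY1.2
        apply hit_append hw2
        rw [hc]
        exact h
    have hvol : volume.real (Bd ∩ I) ≤ 2996 / s := by
      have h1 : volume ((fun Y => s * Y - c) ⁻¹' Bd) = ENNReal.ofReal (s⁻¹) * volume Bd := by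
        have h2 : (fun Y : ℝ => s * Y - c) ⁻¹' Bd
            = (fun Y => s * Y) ⁻¹' ((fun Y => Y + (-c)) ⁻¹' Bd) := by
          ext Y
          simp [sub_eq_add_neg]
        rw [h2, Real.volume_preimage_mul_left hspos.ne', measure_preimage_add_right,
          abs_of_pos (inv_pos.2 hspos)]
      have h3 : volume.real (Bd ∩ I) ≤ volume.real ((fun Y => s * Y - c) ⁻¹' Bd) := by
        refine measureReal_mono hBI ?_
        rw [h1]
        exact ENNReal.mul_ne_top ENNReal.ofReal_ne_top hfin
      have h4 : volume.real ((fun Y => s * Y - c) ⁻¹' Bd) = s⁻¹ * volume.real Bd := by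
        rw [measureReal_def, h1, ENNReal.toReal_mul, ENNReal.toReal_ofReal (by positivity)]
        rfl
      rw [h4] at h3
      calc volume.real (Bd ∩ I) ≤ s⁻¹ * volume.real Bd := h3
        _ ≤ s⁻¹ * 2996 := by
            gcongr
            exact bd_vol
        _ = 2996 / s := by ring
    have hball : volume.real (Metric.closedBall X (r n)) = 2 * r n := by
      rw [Real.volume_real_closedBall (hrpos n).le]
    have hIv : volume.real I = 3000 / s := by
      rw [hI, Real.volume_real_Icc]
      have h3 : (3000 + c) / s - c / s = 3000 / s := by ring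
      rw [h3]
      exact max_eq_left (by positivity)
    have hBball : volume.real (Bd ∩ Metric.closedBall X (r n)) ≤ 2 * r n - 4 / s := by
      have h5 : Bd ∩ Metric.closedBall X (r n)
          ⊆ (Bd ∩ I) ∪ (Metric.closedBall X (r n) \ I) := by
        rintro Y ⟨h6, h7⟩
        by_cases h8 : Y ∈ I
        · left; exact ⟨h6, h8⟩
        · right; exact ⟨h7, h8⟩
      have h9 : volume.real (Metric.closedBall X (r n) \ I) = 2 * r n - 3000 / s := by
        rw [measureReal_sdiff hIsub measurableSet_Icc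
          (by rw [Real.volume_closedBall]; exact ENNReal.ofReal_ne_top), hball, hIv]
      have hnt : volume ((Bd ∩ I) ∪ (Metric.closedBall X (r n) \ I)) ≠ ⊤ := by
        refine ne_top_of_le_ne_top ?_ (measure_mono (show _ ⊆ Metric.closedBall X (r n) from ?_))
        · rw [Real.volume_closedBall]; exact ENNReal.ofReal_ne_top
        · rintro Y (h | h)
          · exact hIsub h.2
          · exact h.1
      calc volume.real (Bd ∩ Metric.closedBall X (r n))
          ≤ volume.real ((Bd ∩ I) ∪ (Metric.closedBall X (r n) \ I)) := measureReal_mono h5 hnt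
        _ ≤ volume.real (Bd ∩ I) + volume.real (Metric.closedBall X (r n) \ I) :=
            measureReal_union_le _ _
        _ ≤ 2996 / s + (2 * r n - 3000 / s) := by rw [h9]; gcongr
        _ = 2 * r n - 4 / s := by ring
    have hbpos : 0 < volume (Metric.closedBall X (r n)) := by
      rw [Real.volume_closedBall]
      exact ENNReal.ofReal_pos.2 (by have := hrpos n; linarith)
    have hbtop : volume (Metric.closedBall X (r n)) ≠ ⊤ := by
      rw [Real.volume_closedBall]; exact ENNReal.ofReal_ne_top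
    rw [ENNReal.div_le_iff hbpos.ne' hbtop]
    have e1 : volume (Bd ∩ Metric.closedBall X (r n))
        = ENNReal.ofReal (volume.real (Bd ∩ Metric.closedBall X (r n))) := by
      rw [measureReal_def, ENNReal.ofReal_toReal]
      exact ne_top_of_le_ne_top hbtop (measure_mono Set.inter_subset_right)
    have e2 : volume (Metric.closedBall X (r n)) = ENNReal.ofReal (2 * r n) := by
      rw [← hball, measureReal_def, ENNReal.ofReal_toReal hbtop]
    rw [e1, e2, ← ENNReal.ofReal_mul (by norm_num)]
    apply ENNReal.ofReal_le_ofReal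
    calc volume.real (Bd ∩ Metric.closedBall X (r n)) ≤ 2 * r n - 4 / s := hBball
      _ ≤ 5998 / 6000 * (2 * r n) := by
          rw [hsr]
          have : 0 < 1 / s := by positivity
          have e3 : (2 : ℝ) * (3000 / s) = 6000 * (1 / s) := by ring
          have e4 : (4 : ℝ) / s = 4 * (1 / s) := by ring
          rw [e3, e4]
          linarith
  have hle := le_of_tendsto' ht hub
  have : ENNReal.ofReal (5998 / 6000) < 1 := by
    rw [ENNReal.ofReal_lt_one]; norm_num
  exact absurd hle (not_le.2 this)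

/-- The reaching set has volume at least the hull. -/
lemma hit_vol : ENNReal.ofReal 3000 ≤ volume (Hit (Ow tbl) (2 / 5)) := by
  have h1 : Set.Icc (0 : ℝ) 3000 ⊆ Hit (Ow tbl) (2 / 5) ∪ Bd := by
    intro X hX
    by_cases h : X ∈ Hit (Ow tbl) (2 / 5)
    · left; exact h
    · right; exact ⟨hX, h⟩
  calc ENNReal.ofReal 3000 = volume (Set.Icc (0 : ℝ) 3000) := by simp
    _ ≤ volume (Hit (Ow tbl) (2 / 5) ∪ Bd) := measure_mono h1
    _ ≤ volume (Hit (Ow tbl) (2 / 5)) + volume Bd := measure_union_le _ _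
    _ = volume (Hit (Ow tbl) (2 / 5)) := by rw [bd_zero, add_zero]

end Pool.Agent.H65.Kn
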