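import Pool.Agent.H65.Kn.Sound

/-!
# The table of the open set (58 intervals of cells)
-/

set_option autoImplicit false

namespace Pool.Agent.H65.Kn

/-- The coded table. -/
def tbl : ℕ := 8551528750426615743523718834506305840288218512735020413616888002662832454950272479904831331842245912105363757057999284992321785057772959782451500080097373753578397748407226143274440922776417835599709599824992605673203844790356796814914403864018599197067874733424463057491544578069840784742782420679266138800274777451861592950528645746935656749092626349556233753560867855250917986379529126180710500620890438279667911484

/-- The intervals. -/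
def cl : List (ℕ × ℕ) :=
  [(120, 124), (137, 146), (150, 154), (156, 160), (294, 298), (300, 311), (333, 338),
    (342, 366), (373, 386), (389, 402), (409, 412), (421, 431), (621, 623), (646, 651),
    (655, 658), (660, 666), (667, 669), (720, 727), (733, 746), (748, 775), (776, 778),
    (780, 786), (787, 789), (830, 832), (834, 847), (849, 852), (853, 915), (932, 967),
    (972, 1004), (1009, 1013), (1015, 1019), (1050, 1051), (1053, 1077), (1145, 1151),
    (1175, 1178), (1181, 1186), (1440, 1444), (1457, 1466), (1470, 1474), (1476, 1480),
    (1663, 1666), (1920, 1924), (1937, 1946), (1950, 1954), (1956, 1960), (2094, 2098),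
    (2100, 2111), (2133, 2138), (2142, 2166), (2173, 2186), (2189, 2202), (2209, 2212),
    (2221, 2231), (2376, 2377), (2640, 2644), (2657, 2666), (2670, 2674), (2676, 2680)]

end Pool.Agent.H65.Kn
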